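import Mathlib
import Pool.Agent.helper56.SGE.Comb

/-!
# Module O2: positive faces give a planar drawing
-/

set_option autoImplicit false

namespace Pool.Agent.helper9.SGE

open Pool.Agent.helper56.SGE Topology

/-! ### Crossing numbers with a horizontal ray -/

/-- signed crossing of the segment from `a` to `b` with the horizontal ray from `z` -/
noncomputable def wt (z a b : Pt) : ℝ :=
  (if a.2 < z.2 ∧ z.2 < b.2 ∧ 0 < orient z a b then 1 else 0) -
  (if b.2 < z.2 ∧ z.2 < a.2 ∧ 0 < orient z b a then 1 else 0)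

theorem wt_anti (z a b : Pt) : wt z a b = - wt z b a := by unfold wt; ring

/-- strictly inside a positive triangle -/
def Ins (z a b c : Pt) : Prop := 0 < orient z a b ∧ 0 < orient z b c ∧ 0 < orient z c a

/-- closed triangle -/
def Cls (z a b c : Pt) : Prop := 0 ≤ orient z a b ∧ 0 ≤ orient z b c ∧ 0 ≤ orient z c a

theorem orient_swap (z a b : Pt) : orient z b a = - orient z a b := by unfold orient; ring

theorem core (A B C X Y Z : ℝ) (hA : A ≠ 0) (hB : B ≠ 0) (hC : C ≠ 0) (hX : X ≠ 0) (hY : Y ≠ 0)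
    (hZ : Z ≠ 0) (h : A * Y + B * Z + C * X = 0) (s : ℝ)
    (hs : s = ((if A < 0 ∧ 0 < B ∧ 0 < X then (1 : ℝ) else 0) -
        (if B < 0 ∧ 0 < A ∧ X < 0 then 1 else 0)) +
      ((if B < 0 ∧ 0 < C ∧ 0 < Y then 1 else 0) - (if C < 0 ∧ 0 < B ∧ Y < 0 then 1 else 0)) +
      ((if C < 0 ∧ 0 < A ∧ 0 < Z then 1 else 0) - (if A < 0 ∧ 0 < C ∧ Z < 0 then 1 else 0))) :
    ((0 < X ∧ 0 < Y ∧ 0 < Z) → s = 1) ∧ (¬ (0 < X ∧ 0 < Y ∧ 0 < Z) → s ≤ 0) ∧
    (¬ (0 < X ∧ 0 < Y ∧ 0 < Z) → 0 < X + Y + Z → s = 0) := by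
  subst hs
  rcases lt_or_gt_of_ne hA with a | a <;> rcases lt_or_gt_of_ne hB with b | b <;>
  rcases lt_or_gt_of_ne hC with c | c <;> rcases lt_or_gt_of_ne hX with x | x <;>
  rcases lt_or_gt_of_ne hY with y | y <;> rcases lt_or_gt_of_ne hZ with t | t <;>
  simp only [a, b, c, x, y, t, not_lt_of_gt a, not_lt_of_gt b, not_lt_of_gt c, not_lt_of_gt x,
    not_lt_of_gt y, not_lt_of_gt t, true_and, and_true, and_false, and_self, if_true,
    if_false, not_false_iff, not_true, forall_true_left, false_imp_iff] <;>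
  norm_num <;> first | linarith | nlinarith


theorem wt_sum {z a b c : Pt} (ha : a.2 ≠ z.2) (hb : b.2 ≠ z.2) (hc : c.2 ≠ z.2)
    (hX : orient z a b ≠ 0) (hY : orient z b c ≠ 0) (hZ : orient z c a ≠ 0) :
    (Ins z a b c → wt z a b + wt z b c + wt z c a = 1) ∧
    (¬ Ins z a b c → wt z a b + wt z b c + wt z c a ≤ 0) ∧
    (¬ Ins z a b c → 0 < orient a b c → wt z a b + wt z b c + wt z c a = 0) := by
  have h := core (a.2 - z.2) (b.2 - z.2) (c.2 - z.2) (orient z a b) (orient z b c) (orient z c a)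
    (sub_ne_zero.mpr ha) (sub_ne_zero.mpr hb) (sub_ne_zero.mpr hc) hX hY hZ
    (by unfold orient; ring) (wt z a b + wt z b c + wt z c a) (by
      unfold wt
      rw [orient_swap z a b, orient_swap z b c, orient_swap z c a]
      simp only [sub_neg, sub_pos, neg_pos])
  have h2 : orient z a b + orient z b c + orient z c a = orient a b c := by unfold orient; ring
  rw [h2] at h
  exact h

theorem orient_comb {x y a b : Pt} {s t : ℝ} (hst : s + t = 1) :
    orient (s • x + t • y) a b = s * orient x a b + t * orient y a b := by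
  have : s = 1 - t := by linarith
  subst this
  unfold orient
  simp only [Prod.fst_add, Prod.snd_add, Prod.smul_fst, Prod.smul_snd, smul_eq_mul]
  ring

theorem continuous_orient (a b : Pt) : Continuous (fun z : Pt => orient z a b) := by
  unfold orient; fun_prop

theorem fill0 {a b c z0 : Pt} (h : 0 < orient a b c) (hz : z0 ∈ openSegment ℝ a b) :
    ∀ᶠ z in 𝓝 z0, 0 < orient z b c ∧ 0 < orient z c a := by
  obtain ⟨s, t, hs, ht, hst, rfl⟩ := hz
  have h1 : 0 < orient (s • a + t • b) b c := by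
    rw [orient_comb hst]
    have : orient b b c = 0 := by unfold orient; ring
    rw [this]; simp; positivity
  have h2 : 0 < orient (s • a + t • b) c a := by
    rw [orient_comb hst]
    have e1 : orient a c a = 0 := by unfold orient; ring
    have e2 : orient b c a = orient a b c := by unfold orient; ring
    rw [e1, e2]; simp; positivity
  exact ((continuous_orient b c).continuousAt.eventually_const_lt h1).and
    ((continuous_orient c a).continuousAt.eventually_const_lt h2)

section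

variable {α : Type*} [DecidableEq α]

/-- generic points -/
def Gn (S : Finset α) (p : α → Pt) (z : Pt) : Prop :=
  (∀ a ∈ S, (p a).2 ≠ z.2) ∧ ∀ a ∈ S, ∀ b ∈ S, p a ≠ p b → orient z (p a) (p b) ≠ 0

theorem exists_gn (S : Finset α) (p : α → Pt) {U : Set Pt} (hU : IsOpen U) (hne : U.Nonempty) :
    ∃ z ∈ U, Gn S p z := by
  obtain ⟨z1, hz1⟩ := hne
  obtain ⟨ε, hε, hb⟩ := Metric.isOpen_iff.mp hU z1 hz1
  have i1 : (Set.Ioo (z1.2 - ε) (z1.2 + ε)).Infinite := Set.Ioo_infinite (by linarith)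
  obtain ⟨y, hy, hy2⟩ := (i1.sdiff (S.image (fun a => (p a).2)).finite_toSet).nonempty
  have i2 : (Set.Ioo (z1.1 - ε) (z1.1 + ε)).Infinite := Set.Ioo_infinite (by linarith)
  obtain ⟨x, hx, hx2⟩ := (i2.sdiff ((S ×ˢ S).image (fun e : α × α =>
    -((p e.1).1 * ((p e.2).2 - y) - ((p e.1).2 - y) * (p e.2).1) /
      ((p e.1).2 - (p e.2).2))).finite_toSet).nonempty
  refine ⟨(x, y), hb ?_, ?_, ?_⟩
  · rw [Metric.mem_ball, Prod.dist_eq, max_lt_iff, Real.dist_eq, Real.dist_eq, abs_lt, abs_lt]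
    rw [Set.mem_Ioo] at hx hy
    refine ⟨⟨?_, ?_⟩, ?_, ?_⟩ <;> simp only <;> linarith
  · intro a ha h
    apply hy2
    simp only [Finset.coe_image, Set.mem_image, Finset.mem_coe]
    exact ⟨a, ha, h⟩
  · intro a ha b hb hab h
    have hya : (p a).2 ≠ y := by
      intro h
      apply hy2
      simp only [Finset.coe_image, Set.mem_image, Finset.mem_coe]
      exact ⟨a, ha, h⟩
    by_cases h2 : (p a).2 = (p b).2
    · have h3 : (p a).1 = (p b).1 := by
        unfold orient at h
        simp only at h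
        rw [← h2] at h
        have h4 : ((p a).2 - y) * ((p a).1 - (p b).1) = 0 := by linear_combination h
        rcases mul_eq_zero.mp h4 with h5 | h5
        · exact absurd (by linarith) hya
        · linarith
      exact hab (Prod.ext h3 h2)
    · apply hx2
      simp only [Finset.coe_image, Set.mem_image, Finset.mem_coe, Finset.mem_product]
      refine ⟨(a, b), ⟨ha, hb⟩, ?_⟩
      rw [div_eq_iff (sub_ne_zero.mpr h2)]
      unfold orient at h
      simp only at h
      linear_combination -h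

/-- strictly inside a face -/
def InsF (p : α → Pt) (z : Pt) (f : Face α) : Prop := Ins z (p f.1) (p f.2.1) (p f.2.2)

/-- in the closed face -/
def ClsF (p : α → Pt) (z : Pt) (f : Face α) : Prop := Cls z (p f.1) (p f.2.1) (p f.2.2)

theorem mem1 (f : Face α) : f.1 ∈ f.verts := by unfold Face.verts; simp
theorem mem2 (f : Face α) : f.2.1 ∈ f.verts := by unfold Face.verts; simp
theorem mem3 (f : Face α) : f.2.2 ∈ f.verts := by unfold Face.verts; simp

theorem mem_verts {f : Face α} {u : α} : u ∈ f.verts ↔ u = f.1 ∨ u = f.2.1 ∨ u = f.2.2 := by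
  unfold Face.verts; simp

theorem mem_dE {f : Face α} {e : α × α} :
    e ∈ f.dE ↔ e = (f.1, f.2.1) ∨ e = (f.2.1, f.2.2) ∨ e = (f.2.2, f.1) := by
  unfold Face.dE; simp

variable {S : Finset α} {o : Face α} {F : List (Face α)} {p : α → Pt}

theorem sumF (h : Sphere S o F) (hp : Set.InjOn p S) {z : Pt} (hz : Gn S p z) {f : Face α}
    (hf : f ∈ o :: F) :
    (InsF p z f → wt z (p f.1) (p f.2.1) + wt z (p f.2.1) (p f.2.2) + wt z (p f.2.2) (p f.1) = 1) ∧
    (¬ InsF p z f →
      wt z (p f.1) (p f.2.1) + wt z (p f.2.1) (p f.2.2) + wt z (p f.2.2) (p f.1) ≤ 0) ∧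
    (¬ InsF p z f → 0 < orient (p f.1) (p f.2.1) (p f.2.2) →
      wt z (p f.1) (p f.2.1) + wt z (p f.2.1) (p f.2.2) + wt z (p f.2.2) (p f.1) = 0) := by
  have hs := h.sub f hf
  have h1 := hs (mem1 f)
  have h2 := hs (mem2 f)
  have h3 := hs (mem3 f)
  obtain ⟨n1, n2, n3⟩ := h.ne f hf
  exact wt_sum (hz.1 _ h1) (hz.1 _ h2) (hz.1 _ h3)
    (hz.2 _ h1 _ h2 (fun e => n1 (hp h1 h2 e))) (hz.2 _ h2 _ h3 (fun e => n2 (hp h2 h3 e)))
    (hz.2 _ h3 _ h1 (fun e => n3 (hp h3 h1 e)))

theorem count (h : Sphere S o F) (hp : Set.InjOn p S)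
    (hpos : ∀ f ∈ F, 0 < orient (p f.1) (p f.2.1) (p f.2.2)) {z : Pt} (hz : Gn S p z)
    {f : Face α} (hf : f ∈ F) (hi : InsF p z f) :
    InsF p z o ∧ ∀ g ∈ F, InsF p z g → g = f := by
  have hc := h.cancel (fun a b => wt z (p a) (p b)) (fun a b => wt_anti z (p a) (p b))
  set s : Face α → ℝ := fun f =>
    wt z (p f.1) (p f.2.1) + wt z (p f.2.1) (p f.2.2) + wt z (p f.2.2) (p f.1) with hs
  have h1 : (F.map s).sum = s o := hc
  have h0 : ∀ g ∈ F, 0 ≤ s g := by
    intro g hg
    by_cases hi : InsF p z g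
    · have h2 : s g = 1 := (sumF h hp hz (List.mem_cons_of_mem _ hg)).1 hi
      rw [h2]; norm_num
    · have h2 : s g = 0 := (sumF h hp hz (List.mem_cons_of_mem _ hg)).2.2 hi (hpos g hg)
      rw [h2]
  have h2 : s f = 1 := (sumF h hp hz (List.mem_cons_of_mem _ hf)).1 hi
  obtain ⟨l1, l2, hF⟩ := List.append_of_mem hf
  have h3 : (F.map s).sum = (l1.map s).sum + (s f + (l2.map s).sum) := by
    rw [hF, List.map_append, List.sum_append, List.map_cons, List.sum_cons]
  have hl1 : ∀ x ∈ l1.map s, 0 ≤ x := by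
    intro x hx
    obtain ⟨g, hg, rfl⟩ := List.mem_map.mp hx
    exact h0 g (by rw [hF]; exact List.mem_append_left _ hg)
  have hl2 : ∀ x ∈ l2.map s, 0 ≤ x := by
    intro x hx
    obtain ⟨g, hg, rfl⟩ := List.mem_map.mp hx
    exact h0 g (by rw [hF]; exact List.mem_append_right _ (List.mem_cons_of_mem _ hg))
  have h4 := List.sum_nonneg hl1
  have h4' := List.sum_nonneg hl2
  have h5 : InsF p z o := by
    by_contra hno
    have := (sumF h hp hz (List.mem_cons_self (a := o) (l := F))).2.1 hno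
    change s o ≤ 0 at this
    linarith
  have h6 : s o = 1 := (sumF h hp hz (List.mem_cons_self (a := o) (l := F))).1 h5
  refine ⟨h5, fun g hg hgi => ?_⟩
  by_contra hne
  have h10 : s g = 1 := (sumF h hp hz (List.mem_cons_of_mem _ hg)).1 hgi
  rw [hF] at hg
  rcases List.mem_append.mp hg with hg | hg
  · have := List.single_le_sum hl1 (s g) (List.mem_map_of_mem hg)
    linarith
  · rcases List.mem_cons.mp hg with hg | hg
    · exact hne hg
    · have := List.single_le_sum hl2 (s g) (List.mem_map_of_mem hg)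
      linarith

theorem fillF {f : Face α} (hf : 0 < orient (p f.1) (p f.2.1) (p f.2.2)) {u v : α}
    (he : (u, v) ∈ f.dE) {z0 : Pt} (hz : z0 ∈ openSegment ℝ (p u) (p v)) :
    ∀ᶠ z in 𝓝 z0, 0 < orient z (p u) (p v) → InsF p z f := by
  rcases mem_dE.mp he with h | h | h <;> obtain ⟨rfl, rfl⟩ := Prod.ext_iff.mp h
  · filter_upwards [fill0 hf hz] with z h1 h2
    exact ⟨h2, h1.1, h1.2⟩
  · have hf' : 0 < orient (p f.2.1) (p f.2.2) (p f.1) := by
      have : orient (p f.2.1) (p f.2.2) (p f.1) = orient (p f.1) (p f.2.1) (p f.2.2) := by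
        unfold orient; ring
      rwa [this]
    filter_upwards [fill0 hf' hz] with z h1 h2
    exact ⟨h1.2, h2, h1.1⟩
  · have hf' : 0 < orient (p f.2.2) (p f.1) (p f.2.1) := by
      have : orient (p f.2.2) (p f.1) (p f.2.1) = orient (p f.1) (p f.2.1) (p f.2.2) := by
        unfold orient; ring
      rwa [this]
    filter_upwards [fill0 hf' hz] with z h1 h2
    exact ⟨h1.1, h1.2, h2⟩

/-- near a point of a closed positive face there are generic points inside the face -/
theorem near {f : Face α} (hf : 0 < orient (p f.1) (p f.2.1) (p f.2.2)) {z0 : Pt}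
    (hz : ClsF p z0 f) {P : Pt → Prop} (hP : ∀ᶠ z in 𝓝 z0, P z) :
    ∃ z, Gn S p z ∧ P z ∧ InsF p z f := by
  obtain ⟨U, hUP, hU, hzU⟩ := mem_nhds_iff.mp hP
  set a := p f.1
  set b := p f.2.1
  set c := p f.2.2
  have hV : IsOpen (U ∩ {z | 0 < orient z a b ∧ 0 < orient z b c ∧ 0 < orient z c a}) := by
    refine hU.inter ?_
    have e1 : IsOpen {z | 0 < orient z a b} := isOpen_lt continuous_const (continuous_orient a b)
    have e2 : IsOpen {z | 0 < orient z b c} := isOpen_lt continuous_const (continuous_orient b c)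
    have e3 : IsOpen {z | 0 < orient z c a} := isOpen_lt continuous_const (continuous_orient c a)
    exact e1.inter (e2.inter e3)
  set m : Pt := (1 / 3 : ℝ) • (a + b + c) with hm
  have m1 : orient m a b = orient a b c / 3 := by
    rw [hm]; unfold orient
    simp only [Prod.fst_add, Prod.snd_add, Prod.smul_fst, Prod.smul_snd, smul_eq_mul]; ring
  have m2 : orient m b c = orient a b c / 3 := by
    rw [hm]; unfold orient
    simp only [Prod.fst_add, Prod.snd_add, Prod.smul_fst, Prod.smul_snd, smul_eq_mul]; ring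
  have m3 : orient m c a = orient a b c / 3 := by
    rw [hm]; unfold orient
    simp only [Prod.fst_add, Prod.snd_add, Prod.smul_fst, Prod.smul_snd, smul_eq_mul]; ring
  have hne : (U ∩ {z | 0 < orient z a b ∧ 0 < orient z b c ∧ 0 < orient z c a}).Nonempty := by
    have hcont : Continuous (fun t : ℝ => (1 - t) • z0 + t • m) := by fun_prop
    have h0 : (1 - (0 : ℝ)) • z0 + (0 : ℝ) • m ∈ U := by simpa using hzU
    have h1 : ∀ᶠ t in 𝓝 (0 : ℝ), (1 - t) • z0 + t • m ∈ U :=
      hcont.continuousAt.eventually_mem (hU.mem_nhds h0)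
    have h2 : ∀ᶠ t in 𝓝[>] (0 : ℝ), (1 - t) • z0 + t • m ∈ U := h1.filter_mono nhdsWithin_le_nhds
    have h3 : ∀ᶠ t in 𝓝[>] (0 : ℝ), t < 1 := (eventually_lt_nhds one_pos).filter_mono
      nhdsWithin_le_nhds
    obtain ⟨t, ⟨ht1, ht2⟩, ht3⟩ := ((h2.and h3).and self_mem_nhdsWithin).exists
    have hst : (1 - t) + t = 1 := by ring
    refine ⟨_, ht1, ?_, ?_, ?_⟩
    · rw [orient_comb hst, m1]
      have := mul_nonneg (by linarith : (0 : ℝ) ≤ 1 - t) hz.1
      have := mul_pos ht3 hf
      linarith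
    · rw [orient_comb hst, m2]
      have := mul_nonneg (by linarith : (0 : ℝ) ≤ 1 - t) hz.2.1
      have := mul_pos ht3 hf
      linarith
    · rw [orient_comb hst, m3]
      have := mul_nonneg (by linarith : (0 : ℝ) ≤ 1 - t) hz.2.2
      have := mul_pos ht3 hf
      linarith
  obtain ⟨z, hz, hg⟩ := exists_gn S p hV hne
  exact ⟨z, hg, hUP hz.1, hz.2⟩

theorem edge (h : Sphere S o F) (hp : Set.InjOn p S)
    (hpos : ∀ f ∈ F, 0 < orient (p f.1) (p f.2.1) (p f.2.2)) {f : Face α} (hf : f ∈ F) {u v : α}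
    (he : (u, v) ∈ f.dE) {z0 : Pt} (hz : z0 ∈ openSegment ℝ (p u) (p v)) {g : Face α}
    (hg : g ∈ F) (hc : ClsF p z0 g) : u ∈ g.verts ∧ v ∈ g.verts := by
  have hu : u ∈ f.verts ∧ v ∈ f.verts := by
    rcases mem_dE.mp he with h | h | h <;> obtain ⟨rfl, rfl⟩ := Prod.ext_iff.mp h
    · exact ⟨mem1 f, mem2 f⟩
    · exact ⟨mem2 f, mem3 f⟩
    · exact ⟨mem3 f, mem1 f⟩
  have huS := h.sub f (List.mem_cons_of_mem _ hf) hu.1
  have hvS := h.sub f (List.mem_cons_of_mem _ hf) hu.2
  have huv : p u ≠ p v := by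
    intro e
    have := hp huS hvS e
    obtain ⟨n1, n2, n3⟩ := h.ne f (List.mem_cons_of_mem _ hf)
    rcases mem_dE.mp he with h | h | h <;> obtain ⟨rfl, rfl⟩ := Prod.ext_iff.mp h
    · exact n1 this
    · exact n2 this
    · exact n3 this
  have hz' : z0 ∈ openSegment ℝ (p v) (p u) := by rwa [openSegment_symm]
  rcases h.rev f hf (u, v) he with ⟨g', hg', he'⟩ | ho
  · have he2 : (v, u) ∈ g'.dE := he'
    have hu' : u ∈ g'.verts ∧ v ∈ g'.verts := by
      rcases mem_dE.mp he2 with h | h | h <;> obtain ⟨rfl, rfl⟩ := Prod.ext_iff.mp h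
      · exact ⟨mem2 g', mem1 g'⟩
      · exact ⟨mem3 g', mem2 g'⟩
      · exact ⟨mem1 g', mem3 g'⟩
    obtain ⟨z, hgn, ⟨h1, h2⟩, hi⟩ := near (S := S) (hpos g hg) hc
      ((fillF (hpos f hf) he hz).and (fillF (hpos g' hg') he2 hz'))
    rcases lt_or_gt_of_ne (hgn.2 u huS v hvS huv) with h3 | h3
    · have h4 : 0 < orient z (p v) (p u) := by rw [orient_swap]; linarith
      have := (count h hp hpos hgn hg hi).2 g' hg' (h2 h4)
      rw [← this]; exact hu'
    · have := (count h hp hpos hgn hg hi).2 f hf (h1 h3)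
      rw [← this]; exact hu
  · obtain ⟨z, hgn, h1, hi⟩ := near (S := S) (hpos g hg) hc (fillF (hpos f hf) he hz)
    rcases lt_or_gt_of_ne (hgn.2 u huS v hvS huv) with h3 | h3
    · exfalso
      have h5 := (count h hp hpos hgn hg hi).1
      have : 0 < orient z (p u) (p v) := by
        rcases mem_dE.mp ho with h | h | h <;> obtain ⟨rfl, rfl⟩ := Prod.ext_iff.mp h
        · exact h5.1
        · exact h5.2.1
        · exact h5.2.2
      linarith
    · have := (count h hp hpos hgn hg hi).2 f hf (h1 h3)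
      rw [← this]; exact hu

theorem dE_of_verts {f : Face α} {u v : α} (huv : u ≠ v) (hu : u ∈ f.verts) (hv : v ∈ f.verts) :
    (u, v) ∈ f.dE ∨ (v, u) ∈ f.dE := by
  rw [mem_verts] at hu hv
  rw [mem_dE, mem_dE]
  rcases hu with rfl | rfl | rfl <;> rcases hv with rfl | rfl | rfl <;> simp_all

theorem edge_face (h : Sphere S o F) {u v : α} (hadj : trAdj o F u v) :
    ∃ f ∈ F, u ∈ f.verts ∧ v ∈ f.verts ∧ ((u, v) ∈ f.dE ∨ (v, u) ∈ f.dE) := by
  have key : ∀ f ∈ F, ∀ u v : α, (u, v) ∈ f.dE → u ∈ f.verts ∧ v ∈ f.verts := by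
    intro f _ u v he
    rcases mem_dE.mp he with h | h | h <;> obtain ⟨rfl, rfl⟩ := Prod.ext_iff.mp h
    · exact ⟨mem1 f, mem2 f⟩
    · exact ⟨mem2 f, mem3 f⟩
    · exact ⟨mem3 f, mem1 f⟩
  obtain ⟨huv, f, hf, hu, hv⟩ := hadj
  rcases List.mem_cons.mp hf with rfl | hf
  · rcases dE_of_verts huv hu hv with he | he
    · obtain ⟨g, hg, he⟩ := h.rev_o _ he
      exact ⟨g, hg, (key g hg _ _ he).1, (key g hg _ _ he).2, Or.inl he⟩
    · obtain ⟨g, hg, he⟩ := h.rev_o _ he
      exact ⟨g, hg, (key g hg _ _ he).2, (key g hg _ _ he).1, Or.inr he⟩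
  · exact ⟨f, hf, hu, hv, dE_of_verts huv hu hv⟩

theorem edge' (h : Sphere S o F) (hp : Set.InjOn p S)
    (hpos : ∀ f ∈ F, 0 < orient (p f.1) (p f.2.1) (p f.2.2)) {u v : α}
    (he : trAdj o F u v) {z0 : Pt} (hz : z0 ∈ openSegment ℝ (p u) (p v)) {g : Face α}
    (hg : g ∈ F) (hc : ClsF p z0 g) : u ∈ g.verts ∧ v ∈ g.verts := by
  obtain ⟨f, hf, -, -, h1 | h1⟩ := edge_face h he
  · exact edge h hp hpos hf h1 hz hg hc
  · exact (edge h hp hpos hf h1 (by rwa [openSegment_symm]) hg hc).symm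

theorem cls_vertex {f : Face α} (hf : 0 < orient (p f.1) (p f.2.1) (p f.2.2)) {u : α}
    (hu : u ∈ f.verts) : ClsF p (p u) f := by
  have e1 : ∀ a b : Pt, orient a a b = 0 := by intro a b; unfold orient; ring
  have e2 : ∀ a b : Pt, orient a b a = 0 := by intro a b; unfold orient; ring
  have e3 : ∀ a b c : Pt, orient b c a = orient a b c := by intro a b c; unfold orient; ring
  rcases mem_verts.mp hu with rfl | rfl | rfl
  · exact ⟨(e1 _ _).ge, hf.le, (e2 _ _).ge⟩
  · exact ⟨(e2 _ _).ge, (e1 _ _).ge, by rw [e3]; exact hf.le⟩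
  · exact ⟨by rw [← e3]; exact hf.le, (e2 _ _).ge, (e1 _ _).ge⟩

theorem cls_segment {f : Face α} {x y z : Pt} (hx : ClsF p x f) (hy : ClsF p y f)
    (hz : z ∈ segment ℝ x y) : ClsF p z f := by
  obtain ⟨s, t, hs, ht, hst, rfl⟩ := hz
  refine ⟨?_, ?_, ?_⟩ <;> rw [orient_comb hst]
  · exact add_nonneg (mul_nonneg hs hx.1) (mul_nonneg ht hy.1)
  · exact add_nonneg (mul_nonneg hs hx.2.1) (mul_nonneg ht hy.2.1)
  · exact add_nonneg (mul_nonneg hs hx.2.2) (mul_nonneg ht hy.2.2)

/-- three distinct corners of a positive face are not collinear -/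
theorem not_coll {f : Face α} (hf : 0 < orient (p f.1) (p f.2.1) (p f.2.2)) {u v w : α}
    (hu : u ∈ f.verts) (hv : v ∈ f.verts) (hw : w ∈ f.verts) (huv : u ≠ v) (hvw : v ≠ w)
    (huw : u ≠ w) : orient (p u) (p v) (p w) ≠ 0 := by
  intro h0
  rcases mem_verts.mp hu with rfl | rfl | rfl <;> rcases mem_verts.mp hv with rfl | rfl | rfl <;>
    rcases mem_verts.mp hw with rfl | rfl | rfl <;>
    first
    | exact absurd rfl huv
    | exact absurd rfl hvw
    | exact absurd rfl huw
    | (unfold orient at hf h0; linarith)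

theorem orient_seg {a b z : Pt} (hz : z ∈ segment ℝ a b) : orient a b z = 0 := by
  obtain ⟨s, t, -, -, hst, rfl⟩ := hz
  have : s = 1 - t := by linarith
  subst this
  unfold orient
  simp only [Prod.fst_add, Prod.snd_add, Prod.smul_fst, Prod.smul_snd, smul_eq_mul]
  ring

theorem open_of_seg {a b z : Pt} (hz : z ∈ segment ℝ a b) (ha : z ≠ a) (hb : z ≠ b) :
    z ∈ openSegment ℝ a b := by
  rw [← insert_endpoints_openSegment] at hz
  rcases hz with h | h | h
  · exact absurd h ha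
  · exact absurd h hb
  · exact h

theorem orient_seg3 {a b x y z : Pt} (hz : z ∈ segment ℝ x y) (h0 : orient a b y = 0)
    (h1 : orient a b x ≠ 0) (h2 : orient a b z = 0) : z = y := by
  obtain ⟨s, t, -, -, hst, rfl⟩ := hz
  have : t = 1 - s := by linarith
  subst this
  have h3 : s * orient a b x = 0 := by
    have : orient a b (s • x + (1 - s) • y) = s * orient a b x + (1 - s) * orient a b y := by
      unfold orient
      simp only [Prod.fst_add, Prod.snd_add, Prod.smul_fst, Prod.smul_snd, smul_eq_mul]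
      ring
    rw [this, h0] at h2
    linarith
  rcases mul_eq_zero.mp h3 with h4 | h4
  · subst h4; simp
  · exact absurd h4 h1

theorem two_corners {f : Face α} {u v w x : α} (hu : u ∈ f.verts) (hv : v ∈ f.verts)
    (hw : w ∈ f.verts) (hx : x ∈ f.verts) (huv : u ≠ v) (hwu : w ≠ u) (hwv : w ≠ v)
    (hxw : x ≠ w) : x = u ∨ x = v := by
  rcases mem_verts.mp hu with rfl | rfl | rfl <;> rcases mem_verts.mp hv with rfl | rfl | rfl <;>
    rcases mem_verts.mp hw with rfl | rfl | rfl <;> rcases mem_verts.mp hx with rfl | rfl | rfl <;>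
    simp_all

theorem third (hS : Set.InjOn p S) {f : Face α} (hfS : f.verts ⊆ S)
    (hf : 0 < orient (p f.1) (p f.2.1) (p f.2.2)) {u v w x : α}
    (hu : u ∈ f.verts) (hv : v ∈ f.verts) (hw : w ∈ f.verts) (hx : x ∈ f.verts) (huv : u ≠ v)
    (hwu : w ≠ u) (hwv : w ≠ v) (hxw : x ≠ w) {z : Pt} (hz : z ∈ openSegment ℝ (p u) (p v))
    (hz' : z ∈ segment ℝ (p w) (p x)) : False := by
  have hpuv : p u ≠ p v := fun e => huv (hS (hfS hu) (hfS hv) e)
  have h1 : orient (p u) (p v) (p w) ≠ 0 := not_coll hf hu hv hw huv hwv.symm hwu.symm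
  have h0 : orient (p u) (p v) (p x) = 0 := by
    rcases two_corners hu hv hw hx huv hwu hwv hxw with rfl | rfl
    · unfold orient; ring
    · unfold orient; ring
  have h2 := orient_seg (openSegment_subset_segment ℝ _ _ hz)
  have h3 := orient_seg3 hz' h0 h1 h2
  subst h3
  rcases two_corners hu hv hw hx huv hwu hwv hxw with rfl | rfl
  · rw [left_mem_openSegment_iff] at hz; exact hpuv hz
  · rw [right_mem_openSegment_iff] at hz; exact hpuv hz

/-- an inner point of the edge `u v` on the edge `u' v'` -/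
theorem inner_cross (h : Sphere S o F) (hp : Set.InjOn p S)
    (hpos : ∀ f ∈ F, 0 < orient (p f.1) (p f.2.1) (p f.2.2)) {u v u' v' : α}
    (he : trAdj o F u v) (he' : trAdj o F u' v') (hne : s(u, v) ≠ s(u', v')) {z : Pt}
    (hz : z ∈ openSegment ℝ (p u) (p v)) (hz' : z ∈ segment ℝ (p u') (p v')) : False := by
  obtain ⟨g, hg, hu', hv', -⟩ := edge_face h he'
  have hc : ClsF p z g :=
    cls_segment (cls_vertex (hpos g hg) hu') (cls_vertex (hpos g hg) hv') hz'
  obtain ⟨hu, hv⟩ := edge' h hp hpos he hz hg hc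
  have huv := he.1
  have huv' := he'.1
  have hgS := h.sub g (List.mem_cons_of_mem _ hg)
  -- a third corner
  have hthird : (u' ≠ u ∧ u' ≠ v) ∨ (v' ≠ u ∧ v' ≠ v) := by
    by_contra hcon
    apply hne
    rw [Sym2.eq_iff]
    by_cases h1 : u' = u
    · subst h1
      by_cases h2 : v' = v
      · exact Or.inl ⟨rfl, h2.symm⟩
      · exact absurd (Or.inr ⟨huv'.symm, h2⟩) hcon
    · by_cases h2 : u' = v
      · subst h2
        by_cases h3 : v' = u
        · exact Or.inr ⟨h3.symm, rfl⟩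
        · exact absurd (Or.inr ⟨h3, huv'.symm⟩) hcon
      · exact absurd (Or.inl ⟨h1, h2⟩) hcon
  rcases hthird with ⟨h1, h2⟩ | ⟨h1, h2⟩
  · exact third hp hgS (hpos g hg) hu hv hu' hv' huv h1 h2 huv'.symm hz hz'
  · exact third hp hgS (hpos g hg) hu hv hv' hu' huv h1 h2 huv' hz (by rwa [segment_symm])

/-- **module O2**: positive faces give a planar drawing -/
theorem O2 {S : Finset α} {o : Face α} {F : List (Face α)} (h : Sphere S o F) {p : α → Pt}
    (hp : Set.InjOn p S) (hpos : ∀ f ∈ F, 0 < orient (p f.1) (p f.2.1) (p f.2.2)) :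
    (∀ u ∈ S, ∀ v ∈ S, ∀ w ∈ S, trAdj o F u v → w ≠ u → w ≠ v →
      p w ∉ segment ℝ (p u) (p v)) ∧
    (∀ u ∈ S, ∀ v ∈ S, ∀ u' ∈ S, ∀ v' ∈ S, trAdj o F u v → trAdj o F u' v' →
      s(u, v) ≠ s(u', v') → ¬ Cross p u v u' v') := by
  constructor
  · intro u hu v hv w hw he hwu hwv hz
    have hz2 := open_of_seg hz (fun e => hwu (hp hw hu e)) (fun e => hwv (hp hw hv e))
    obtain ⟨g, hg, hwg⟩ := h.cover w hw
    obtain ⟨hug, hvg⟩ := edge' h hp hpos he hz2 hg (cls_vertex (hpos g hg) hwg)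
    exact not_coll (hpos g hg) hug hvg hwg he.1 hwv.symm hwu.symm (orient_seg hz)
  · rintro u hu v hv u' hu' v' hv' he he' hne ⟨z, hz, hz', hno⟩
    by_cases h1 : z = p u
    · by_cases h2 : z = p u'
      · have : u = u' := hp hu hu' (h1.symm.trans h2)
        exact hno ⟨u, Or.inl rfl, Or.inl this, h1⟩
      · by_cases h3 : z = p v'
        · have : u = v' := hp hu hv' (h1.symm.trans h3)
          exact hno ⟨u, Or.inl rfl, Or.inr this, h1⟩
        · exact inner_cross h hp hpos he' he (fun e => hne e.symm) (open_of_seg hz' h2 h3) hz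
    · by_cases h1' : z = p v
      · by_cases h2 : z = p u'
        · have : v = u' := hp hv hu' (h1'.symm.trans h2)
          exact hno ⟨v, Or.inr rfl, Or.inl this, h1'⟩
        · by_cases h3 : z = p v'
          · have : v = v' := hp hv hv' (h1'.symm.trans h3)
            exact hno ⟨v, Or.inr rfl, Or.inr this, h1'⟩
          · exact inner_cross h hp hpos he' he (fun e => hne e.symm) (open_of_seg hz' h2 h3) hz
      · exact inner_cross h hp hpos he he' hne (open_of_seg hz h1 h1') hz'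

end

end Pool.Agent.helper9.SGE
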